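import Pool.Agent.Y766.R10.Stm
import Pool.Agent.Y766.R7.ZF

/-!
Project R10, job KEY: the mean square over `l` of the Fourier sums attached to
`x ↦ χ(c_l + E x + p^m l) conj χ(c_l + E x)`. Adapted from `Pool/Agent/Y766/R7/ZE.lean`.
-/

set_option autoImplicit false

namespace Pool.Agent.Y914.R10

open Finset
open Pool.Agent.H442R2
open Pool.Agent.Y766
open Pool.Agent.Y766.R7
open Pool.Agent.Y766.R3 (eu KL S_KLO S_PHI FF FH)

/-- Fourier coefficients after an affine substitution -/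
lemma FH_aff {Q : ℕ} [NeZero Q] (F : ℤ → ℂ) (hF : ∀ n k : ℤ, F (n + Q * k) = F n) (c E Eb : ℤ)
    (hE : (E : ZMod Q) * (Eb : ZMod Q) = 1) (j : ℤ) :
    FH Q (fun x => F (c + E * x)) j =
      KF.e (((-(j * Eb * c) : ℤ) : ℝ) / Q) * FH Q F (j * Eb) := by
  classical
  set G : ZMod Q → ℂ := fun x => F (x.val : ℤ) with hG
  have hGa : ∀ a : ℤ, F a = G (a : ZMod Q) := by
    intro a
    show F a = F (((a : ZMod Q).val : ℕ) : ℤ)
    rw [ZMod.val_intCast]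
    conv_lhs => rw [← Int.emod_add_mul_ediv a Q]
    exact hF _ _
  have e1 : FH Q (fun x => F (c + E * x)) j = ∑ x : ZMod Q,
      G ((c : ZMod Q) + (E : ZMod Q) * x) *
        (ZMod.stdAddChar : AddChar (ZMod Q) ℂ) ((j : ZMod Q) * x) := by
    unfold FH
    rw [← Pool.Agent.Y766.R3.sum_range_zmod (fun x : ZMod Q =>
      G ((c : ZMod Q) + (E : ZMod Q) * x) *
        (ZMod.stdAddChar : AddChar (ZMod Q) ℂ) ((j : ZMod Q) * x))]
    refine sum_congr rfl fun n _ => ?_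
    have e3 : (j : ZMod Q) * (n : ZMod Q) = ((j * n : ℤ) : ZMod Q) := by
      push_cast; ring
    rw [e3, Pool.Agent.Y766.R3.eq_e]
    show F (c + E * (n : ℤ)) * KF.e ((j : ℝ) * ((n : ℝ) / Q)) = _
    rw [hGa]
    congr 2
    · push_cast; ring
    · push_cast; ring
  have e2 : FH Q F (j * Eb) = ∑ x : ZMod Q,
      G x * (ZMod.stdAddChar : AddChar (ZMod Q) ℂ) (((j * Eb : ℤ) : ZMod Q) * x) := by
    unfold FH
    rw [← Pool.Agent.Y766.R3.sum_range_zmod (fun x : ZMod Q =>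
      G x * (ZMod.stdAddChar : AddChar (ZMod Q) ℂ) (((j * Eb : ℤ) : ZMod Q) * x))]
    refine sum_congr rfl fun n _ => ?_
    have e3 : ((j * Eb : ℤ) : ZMod Q) * (n : ZMod Q) = ((j * Eb * n : ℤ) : ZMod Q) := by
      push_cast; ring
    rw [e3, Pool.Agent.Y766.R3.eq_e, hGa]
    congr 2
    · push_cast; ring
    · push_cast; ring
  have hE' : (Eb : ZMod Q) * (E : ZMod Q) = 1 := by rw [mul_comm]; exact hE
  let τ : ZMod Q ≃ ZMod Q :=
    { toFun := fun x => (c : ZMod Q) + (E : ZMod Q) * x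
      invFun := fun y => (Eb : ZMod Q) * (y - (c : ZMod Q))
      left_inv := by
        intro x
        show (Eb : ZMod Q) * ((c : ZMod Q) + (E : ZMod Q) * x - (c : ZMod Q)) = x
        rw [add_sub_cancel_left, ← mul_assoc, hE', one_mul]
      right_inv := by
        intro y
        show (c : ZMod Q) + (E : ZMod Q) * ((Eb : ZMod Q) * (y - (c : ZMod Q))) = y
        rw [← mul_assoc, hE, one_mul, add_sub_cancel] }
  rw [e1, e2, mul_sum, ← Equiv.sum_comp τ (fun y => KF.e (((-(j * Eb * c) : ℤ) : ℝ) / Q) *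
    (G y * (ZMod.stdAddChar : AddChar (ZMod Q) ℂ) (((j * Eb : ℤ) : ZMod Q) * y)))]
  refine sum_congr rfl fun x _ => ?_
  have e4 : (j : ZMod Q) * x = ((-(j * Eb * c) : ℤ) : ZMod Q) + ((j * Eb : ℤ) : ZMod Q) * τ x := by
    show (j : ZMod Q) * x = ((-(j * Eb * c) : ℤ) : ZMod Q) +
      ((j * Eb : ℤ) : ZMod Q) * ((c : ZMod Q) + (E : ZMod Q) * x)
    push_cast
    linear_combination (-(j : ZMod Q) * x) * hE
  rw [e4, AddChar.map_add_eq_mul, Pool.Agent.Y766.R3.eq_e]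
  show G ((c : ZMod Q) + (E : ZMod Q) * x) * _ = _ * (G ((c : ZMod Q) + (E : ZMod Q) * x) * _)
  ring

/-- periodicity -/
lemma FF_per (hPhi : S_PHI) {p ν m : ℕ} [NeZero (p ^ (ν - m))] (hp : p.Prime) (hp2 : p ≠ 2)
    (hm : 1 ≤ m) (hmν : m < ν)
    {χ : DirichletCharacter ℂ (p ^ ν)} (hχ : χ.IsPrimitive) (l : ℤ) (n k : ℤ) :
    FF χ ((p : ℤ) ^ m * l) (n + (p ^ (ν - m) : ℕ) * k) = FF χ ((p : ℤ) ^ m * l) n := by
  obtain ⟨Φ, hΦ1, hΦ2, hΦ3⟩ := hPhi p ν m hp hp2 hm hmν χ hχ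
  rw [hΦ2, hΦ2]
  have h1 : (p : ℤ) ∣ (p ^ (ν - m) : ℕ) * k := by
    refine Dvd.dvd.mul_right ?_ _
    push_cast
    exact dvd_pow_self _ (by omega)
  have h2 : (p : ℤ) ∣ n + (p ^ (ν - m) : ℕ) * k ↔ (p : ℤ) ∣ n := dvd_add_left h1
  by_cases hn : (p : ℤ) ∣ n
  · rw [if_pos hn, if_pos (h2.2 hn)]
  · rw [if_neg hn, if_neg (fun h => hn (h2.1 h))]
    congr 3
    have h3 : ((p ^ (ν - m) : ℕ) : ZMod (p ^ (ν - m))) = 0 := ZMod.natCast_self _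
    push_cast at h3 ⊢
    rw [h3]
    ring

theorem key (H : HH) : Pool.Agent.Y766.R10.S_KEY := by
  intro δ hδ
  obtain ⟨hsq, htd, hvar, hinj, hlin, hvdc, hcnt, hbr, -, hklo, hPhi, -⟩ := H
  set C1 : ℝ := 8 * (1 + 1 / δ) ^ 5 with hC1
  refine ⟨4 * (131072 * 19 * C1), by positivity, ?_⟩
  intro p hp hp7
  have hp0 : (0 : ℝ) < p := by exact_mod_cast hp.pos
  have hp1 : (1 : ℝ) ≤ p := by exact_mod_cast hp.one_le
  have hp2 : p ≠ 2 := by omega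
  set C0 : ℝ := 131072 * (3 + 8 * (p : ℝ) ^ 2 + 8 * p) with hC0
  have hC00 : 1 ≤ C0 := by
    have : 0 < 8 * (p : ℝ) ^ 2 + 8 * p := by positivity
    rw [hC0]; linarith
  have hC0p : C0 ≤ 131072 * 19 * (p : ℝ) ^ 2 := by
    rw [hC0]
    have : 3 + 8 * (p : ℝ) ^ 2 + 8 * p ≤ 19 * (p : ℝ) ^ 2 := by nlinarith
    linarith
  intro ν m u s κ Yn _ hm hmν hu3 h2u hr2 hs hκ huκ h7 hB hY hA χ hχ E hE c h b
  obtain ⟨Ψ, A, L, hΨ1, hΨ2, hAu, hLu, hFH⟩ :=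
    get_dataU hPhi (u := u) hp hp2 hm hmν hu3 (by omega) hχ
  -- the inverse of `E`
  have hEu : IsUnit (E : ZMod (p ^ (ν - m))) :=
    (Pool.Agent.Y766.R3.isUnit_int hp (by omega) E).2 hE
  obtain ⟨Eb, hEb⟩ : ∃ Eb : ℤ, (Eb : ZMod (p ^ (ν - m))) = ((hEu.unit⁻¹ : (ZMod (p ^ (ν - m)))ˣ) :
      ZMod (p ^ (ν - m))) := ⟨(((hEu.unit⁻¹ : (ZMod (p ^ (ν - m)))ˣ) :
      ZMod (p ^ (ν - m))).val : ℕ), by rw [Int.cast_natCast, ZMod.natCast_zmod_val]⟩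
  have hEE : (E : ZMod (p ^ (ν - m))) * (Eb : ZMod (p ^ (ν - m))) = 1 := by
    rw [hEb]
    exact IsUnit.mul_val_inv hEu
  have hEbu : IsUnit (Eb : ZMod (p ^ (ν - m))) := by rw [hEb]; exact Units.isUnit _
  have hLEu : IsUnit (L * (Eb : ZMod (p ^ (ν - m)))) := hLu.mul hEbu
  set Z : ℝ := C0 * (Yn * ((p : ℝ) ^ κ) ^ 2 / (p : ℝ) ^ s) * (C1 * ((p : ℝ) ^ (ν - m)) ^ (2 * δ)) with hZd
  have hZ0 : 0 ≤ Z := by positivity
  -- the phases
  have hex : ∀ l : ℤ, ∃ γ : ℝ, ¬ (p : ℤ) ∣ l → ∀ j : ℤ,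
      FH (p ^ (ν - m)) (fun x => FF χ ((p : ℤ) ^ m * l) (c l + E * x)) j * eu (b * j) =
        KL Ψ A ((L * (Eb : ZMod (p ^ (ν - m)))) * ((l * j : ℤ) : ZMod (p ^ (ν - m)))) *
          eu (γ * j) := by
    intro l
    by_cases hl : (p : ℤ) ∣ l
    · exact ⟨0, fun h => absurd hl h⟩
    · obtain ⟨d, hd⟩ := hFH l hl
      refine ⟨-(Eb * c l : ℝ) / (p ^ (ν - m) : ℕ) + -(Eb * d : ℝ) / (p ^ (ν - m) : ℕ) + b,
        fun _ j => ?_⟩
      rw [FH_aff (FF χ ((p : ℤ) ^ m * l))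
        (fun n k => FF_per hPhi hp hp2 hm hmν hχ l n k) (c l) E Eb hEE j, hd,
        ← Pool.Agent.Y766.R3.eu_eq, ← Pool.Agent.Y766.R3.eu_eq]
      have e0 : L * ((l * (j * Eb) : ℤ) : ZMod (p ^ (ν - m))) =
          (L * (Eb : ZMod (p ^ (ν - m)))) * ((l * j : ℤ) : ZMod (p ^ (ν - m))) := by
        push_cast; ring
      rw [e0]
      have e00 : eu ((-(Eb * c l : ℝ) / (p ^ (ν - m) : ℕ) + -(Eb * d : ℝ) / (p ^ (ν - m) : ℕ) + b) * j) =
          eu (((-(j * Eb * c l) : ℤ) : ℝ) / (p ^ (ν - m) : ℕ)) *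
            eu (((-(j * Eb * d) : ℤ) : ℝ) / (p ^ (ν - m) : ℕ)) * eu (b * j) := by
        rw [← eu_add, ← eu_add]
        congr 1
        push_cast
        ring
      rw [e00]
      ring
  choose γ hγ using hex
  have hkey := key_abs hbr hklo hp hp2 (u := u) (by omega) (by omega) hΨ1 hΨ2 hAu hLEu γ h (p ^ κ) Yn
    (Z := Z) (fun l0 h0 hl0 hh0 Y C hC => by
      have h4 := Z4 hsq htd hvar hinj hlin hvdc hcnt hp hp7 (u := u) (κ := κ) (s := s) (Yn := Yn)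
        hκ huκ h7 hB hs hY hA hl0 hh0 hΨ1 hΨ2 Y hC γ h
      refine le_of_pow_le_pow_left₀ (n := 4) (by norm_num) hZ0 (h4.trans ?_)
      have h5 := log_fac (p := p) (by omega) hδ (ν - m)
      rw [hZd]
      have e1 : (C0 * (Yn * ((p : ℝ) ^ κ) ^ 2 / (p : ℝ) ^ s) * (C1 * ((p : ℝ) ^ (ν - m)) ^ (2 * δ))) ^ 4 =
          C0 ^ 4 * ((Yn : ℝ) ^ 4 * ((p : ℝ) ^ κ) ^ 8 / (p : ℝ) ^ (4 * s)) *
            (C1 * ((p : ℝ) ^ (ν - m)) ^ (2 * δ)) ^ 4 := by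
        have : (p : ℝ) ^ (4 * s) = ((p : ℝ) ^ s) ^ 4 := by rw [← pow_mul]; congr 1; ring
        rw [this]
        field_simp
      rw [e1, ← hC0]
      have hC4 : C0 ≤ C0 ^ 4 := le_self_pow₀ hC00 (by norm_num)
      have hW0 : 0 ≤ (Yn : ℝ) ^ 4 * ((p : ℝ) ^ κ) ^ 8 / (p : ℝ) ^ (4 * s) := by positivity
      have hlog0 : 0 ≤ Real.log p := Real.log_nonneg hp1
      have hG0 : 0 ≤ (1 + ((ν - m : ℕ) : ℝ) * Real.log p) ^ 2 * (1 + ((ν - m : ℕ) : ℝ)) ^ 3 := by positivity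
      exact mul_le_mul (mul_le_mul_of_nonneg_right hC4 hW0) h5 hG0 (by positivity))
  have e2 : ∀ l ∈ (Ico (1 : ℤ) (1 + Yn)).filter (fun l => ¬ (p : ℤ) ∣ l),
      ‖∑ k ∈ range (p ^ κ), FH (p ^ (ν - m)) (fun x => FF χ ((p : ℤ) ^ m * l) (c l + E * x)) (h + k) *
        eu (b * k)‖ ^ 2 =
      ‖∑ j ∈ Ico h (h + (p ^ κ : ℕ)), KL Ψ A ((L * (Eb : ZMod (p ^ (ν - m)))) *
        ((l * j : ℤ) : ZMod (p ^ (ν - m)))) * eu (γ l * j)‖ ^ 2 := by
    intro l hl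
    rw [mem_filter] at hl
    congr 1
    have e3 : ∑ j ∈ Ico h (h + (p ^ κ : ℕ)), KL Ψ A ((L * (Eb : ZMod (p ^ (ν - m)))) *
          ((l * j : ℤ) : ZMod (p ^ (ν - m)))) * eu (γ l * j) =
        ∑ k ∈ range (p ^ κ), FH (p ^ (ν - m)) (fun x => FF χ ((p : ℤ) ^ m * l) (c l + E * x)) (h + k) *
          eu (b * (h + k : ℤ)) := by
      symm
      refine sum_bij (fun k _ => h + (k : ℤ)) ?_ ?_ ?_ ?_
      · intro k hk
        rw [mem_range] at hk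
        rw [mem_Ico]
        constructor
        · omega
        · have : (k : ℤ) < (p ^ κ : ℕ) := by exact_mod_cast hk
          omega
      · intro k _ k' _ hkk
        have : (k : ℤ) = k' := by linarith
        exact_mod_cast this
      · intro j hj
        rw [mem_Ico] at hj
        refine ⟨(j - h).toNat, ?_, ?_⟩
        · rw [mem_range]; omega
        · rw [Int.toNat_of_nonneg (by omega)]; ring
      · intro k _
        exact hγ l hl.2 _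
    rw [e3]
    have e4 : ∀ k : ℕ, eu (b * ((h + (k : ℤ) : ℤ) : ℝ)) = eu (b * h) * eu (b * k) := by
      intro k
      rw [← eu_add]
      congr 1
      push_cast
      ring
    have e5 : ∑ k ∈ range (p ^ κ), FH (p ^ (ν - m)) (fun x => FF χ ((p : ℤ) ^ m * l) (c l + E * x))
        (h + k) * eu (b * ((h + (k : ℤ) : ℤ) : ℝ)) = eu (b * h) *
        ∑ k ∈ range (p ^ κ), FH (p ^ (ν - m)) (fun x => FF χ ((p : ℤ) ^ m * l) (c l + E * x)) (h + k) *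
          eu (b * k) := by
      rw [mul_sum]
      refine sum_congr rfl fun k _ => ?_
      rw [e4]
      ring
    rw [e5, norm_mul, eu_norm, one_mul]
  rw [sum_congr rfl e2]
  refine hkey.trans ?_
  have hle : ((p : ℝ) ^ (ν - m)) ^ (2 * δ) ≤ ((p : ℝ) ^ ν) ^ (2 * δ) :=
    Real.rpow_le_rpow (by positivity) (pow_le_pow_right₀ hp1 (by omega)) (by positivity)
  have hps0 : (0 : ℝ) < (p : ℝ) ^ s := by positivity
  calc 4 * (p : ℝ) ^ 5 * (p : ℝ) ^ (ν - m) * Z =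
        4 * (p : ℝ) ^ 5 * (C0 * C1) * Yn * ((p : ℝ) ^ κ) ^ 2 * ((p : ℝ) ^ (ν - m) / (p : ℝ) ^ s) *
          ((p : ℝ) ^ (ν - m)) ^ (2 * δ) := by
        rw [hZd]
        generalize ((p : ℝ) ^ (ν - m)) ^ (2 * δ) = G
        ring
    _ ≤ 4 * (p : ℝ) ^ 5 * ((131072 * 19 * (p : ℝ) ^ 2) * C1) * Yn * ((p : ℝ) ^ κ) ^ 2 *
        ((p : ℝ) ^ (ν - m) / (p : ℝ) ^ s) * ((p : ℝ) ^ ν) ^ (2 * δ) := by
        have hC10 : 0 ≤ C1 := by positivity
        gcongr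
    _ = _ := by ring

end Pool.Agent.Y914.R10
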